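import Pool.Agent.Helper6.O3.St

/-!
# Project O3 (MP_d49380_lc), module PO: the checks are primitive recursive
-/

set_option autoImplicit false

namespace Pool.Agent.Helper64.O3

open Pool.Agent.Helper6.O3 Filter Topology
open Pool.Agent.Helper99.DF (T TL sq chk Cert ver StVER StTRA StCMP StSND StPR1 StPRC StVP)
open Pool.Agent.Helper4.IL (Inp primrec_int_add primrec_int_sub primrec_int_mul primrec_int_neg)
open Pool.Agent.Helper90.DF (NN pr_NN pr_nonneg)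

theorem take_eq (L : List ℤ) (n : ℕ) :
    L.take n = (List.range (min n L.length)).map (fun i => L.getD i 0) := by
  apply List.ext_getElem
  · simp
  · intro i h1 h2
    have h3 : i < L.length := by
      rw [List.length_take] at h1
      omega
    rw [List.getElem_take, List.getElem_map, List.getElem_range, List.getD_eq_getElem _ _ h3]

theorem pr_take : Primrec₂ (fun (L : List ℤ) (n : ℕ) => L.take n) := by
  have h : Primrec (fun q : List ℤ × ℕ =>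
      (List.range (min q.2 q.1.length)).map (fun i => q.1.getD i 0)) := by
    refine Primrec.list_map (Primrec.list_range.comp
      (Primrec.nat_min.comp Primrec.snd (Primrec.list_length.comp Primrec.fst))) ?_
    exact (Primrec.list_getD 0).comp (Primrec.fst.comp Primrec.fst) Primrec.snd
  exact h.of_eq fun q => (take_eq q.1 q.2).symm

variable {α : Type} [Primcodable α]

theorem pr_le {f g : α → ℤ} (hf : Primrec f) (hg : Primrec g) :
    PrimrecPred (fun a => f a ≤ g a) :=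
  (PrimrecPred.comp pr_nonneg (primrec_int_sub.comp hg hf)).of_eq fun a => by
    simp

theorem pr_lt {f g : α → ℤ} (hf : Primrec f) (hg : Primrec g) :
    PrimrecPred (fun a => f a < g a) :=
  (PrimrecPred.not (pr_le hg hf)).of_eq fun a => by
    simp

theorem pr_eq {f g : α → ℤ} (hf : Primrec f) (hg : Primrec g) :
    PrimrecPred (fun a => f a = g a) :=
  Primrec.eq.comp hf hg

theorem pr_add {f g : α → ℤ} (hf : Primrec f) (hg : Primrec g) :
    Primrec (fun a => f a + g a) := primrec_int_add.comp hf hg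

theorem pr_mul {f g : α → ℤ} (hf : Primrec f) (hg : Primrec g) :
    Primrec (fun a => f a * g a) := primrec_int_mul.comp hf hg

theorem pr_sub {f g : α → ℤ} (hf : Primrec f) (hg : Primrec g) :
    Primrec (fun a => f a - g a) := primrec_int_sub.comp hf hg

theorem pr_sq {f : α → List ℤ} {g : α → ℕ} (hf : Primrec f) (hg : Primrec g) :
    Primrec (fun a => sq (f a) (g a)) := (Primrec.list_getD 0).comp hf hg

theorem pr_ball {P : ℕ → α → Prop} {f : α → ℕ} (hP : PrimrecRel P) (hf : Primrec f) :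
    PrimrecPred (fun a => ∀ i ∈ List.range (f a), P i a) :=
  PrimrecRel.comp (PrimrecRel.forall_mem_list hP) (Primrec.list_range.comp hf) Primrec.id

theorem pr_TL (h1 : StPR1) {f : α → List ℤ} (hf : Primrec f) : Primrec (fun a => TL (f a)) :=
  (Primrec.comp (f := fun q : ℕ × List ℤ => TL^[q.1] q.2) h1
    (Primrec.pair (Primrec.const 1) hf)).of_eq fun _ => rfl

theorem pr_Cok (h1 : StPR1) (hC : StPRC) {f : α → List ℤ} {t : α → ℕ} {c : α → Cert}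
    (hf : Primrec f) (ht : Primrec t) (hc : Primrec c) :
    PrimrecPred (fun a => Cok (f a) (t a) (c a)) := by
  have hT : Primrec (fun a => TL^[t a] (f a)) :=
    Primrec.comp (f := fun q : ℕ × List ℤ => TL^[q.1] q.2) h1 (Primrec.pair ht hf)
  have a3 : PrimrecPred (fun a => chk (TL^[t a] (f a)) (c a)) :=
    PrimrecPred.comp (p := fun q : List ℤ × Cert => chk q.1 q.2) hC (Primrec.pair hT hc)
  have a4 : PrimrecPred (fun a => NN (t a) (f a)) := PrimrecRel.comp (pr_NN h1) ht hf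
  exact PrimrecPred.and a3 a4

theorem pr_nonneg2 (h1 : StPR1) {f : α → List ℤ} {g : α → ℕ} (hf : Primrec f) (hg : Primrec g) :
    PrimrecPred (fun a => ∀ k ∈ List.range (g a), 0 ≤ sq (f a) k ∧ 0 ≤ sq (TL (f a)) k) := by
  refine pr_ball (P := fun k a => 0 ≤ sq (f a) k ∧ 0 ≤ sq (TL (f a)) k) ?_ hg
  have e1 : Primrec (fun q : ℕ × α => f q.2) := hf.comp Primrec.snd
  have e2 : Primrec (fun q : ℕ × α => q.1) := Primrec.fst
  have e3 : PrimrecPred (fun q : ℕ × α => 0 ≤ sq (f q.2) q.1) :=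
    PrimrecPred.comp pr_nonneg (pr_sq e1 e2)
  have e4 : PrimrecPred (fun q : ℕ × α => 0 ≤ sq (TL (f q.2)) q.1) :=
    PrimrecPred.comp pr_nonneg (pr_sq (pr_TL h1 e1) e2)
  exact PrimrecPred.and e3 e4

theorem pr_okR : PrimrecPred (fun q : List ℤ × (Co × (ℕ × ℕ)) =>
    okR q.1 q.2.1 q.2.2.1 q.2.2.2) := by
  have hL : Primrec (fun q : List ℤ × (Co × (ℕ × ℕ)) => q.1) := Primrec.fst
  have he : Primrec (fun q : List ℤ × (Co × (ℕ × ℕ)) => q.2.1) :=
    Primrec.fst.comp Primrec.snd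
  have hn : Primrec (fun q : List ℤ × (Co × (ℕ × ℕ)) => q.2.2.1) :=
    Primrec.fst.comp (Primrec.snd.comp Primrec.snd)
  have hB : Primrec (fun q : List ℤ × (Co × (ℕ × ℕ)) => q.2.2.2) :=
    Primrec.snd.comp (Primrec.snd.comp Primrec.snd)
  have a1 : PrimrecPred (fun q : List ℤ × (Co × (ℕ × ℕ)) =>
      q.2.2.1 + q.2.2.2 + 5 ≤ q.1.length) :=
    Primrec.nat_le.comp (Primrec.nat_add.comp (Primrec.nat_add.comp hn hB) (Primrec.const 5))
      (Primrec.list_length.comp hL)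
  have a2 : PrimrecPred (fun q : List ℤ × (Co × (ℕ × ℕ)) => ∀ i ∈ List.range (q.2.2.2 + 2),
      q.2.1.1.1 * sq q.1 (q.2.2.1 + i + 3) = q.2.1.1.2 * sq q.1 (q.2.2.1 + i + 2) +
        q.2.1.2.1 * sq q.1 (q.2.2.1 + i + 1) + q.2.1.2.2 * sq q.1 (q.2.2.1 + i)) := by
    refine pr_ball (P := fun (i : ℕ) (q : List ℤ × (Co × (ℕ × ℕ))) =>
      q.2.1.1.1 * sq q.1 (q.2.2.1 + i + 3) = q.2.1.1.2 * sq q.1 (q.2.2.1 + i + 2) +
        q.2.1.2.1 * sq q.1 (q.2.2.1 + i + 1) + q.2.1.2.2 * sq q.1 (q.2.2.1 + i)) ?_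
      (Primrec.nat_add.comp hB (Primrec.const 2))
    have i0 : Primrec (fun p : ℕ × (List ℤ × (Co × (ℕ × ℕ))) => p.2.1) := hL.comp Primrec.snd
    have i1 : Primrec (fun p : ℕ × (List ℤ × (Co × (ℕ × ℕ))) => p.2.2.1.1.1) :=
      Primrec.fst.comp (Primrec.fst.comp (he.comp Primrec.snd))
    have i2 : Primrec (fun p : ℕ × (List ℤ × (Co × (ℕ × ℕ))) => p.2.2.1.1.2) :=
      Primrec.snd.comp (Primrec.fst.comp (he.comp Primrec.snd))
    have i3 : Primrec (fun p : ℕ × (List ℤ × (Co × (ℕ × ℕ))) => p.2.2.1.2.1) :=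
      Primrec.fst.comp (Primrec.snd.comp (he.comp Primrec.snd))
    have i4 : Primrec (fun p : ℕ × (List ℤ × (Co × (ℕ × ℕ))) => p.2.2.1.2.2) :=
      Primrec.snd.comp (Primrec.snd.comp (he.comp Primrec.snd))
    have j0 : Primrec (fun p : ℕ × (List ℤ × (Co × (ℕ × ℕ))) => p.2.2.2.1 + p.1) :=
      Primrec.nat_add.comp (hn.comp Primrec.snd) Primrec.fst
    have j1 : Primrec (fun p : ℕ × (List ℤ × (Co × (ℕ × ℕ))) => p.2.2.2.1 + p.1 + 1) :=
      Primrec.nat_add.comp j0 (Primrec.const 1)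
    have j2 : Primrec (fun p : ℕ × (List ℤ × (Co × (ℕ × ℕ))) => p.2.2.2.1 + p.1 + 2) :=
      Primrec.nat_add.comp j0 (Primrec.const 2)
    have j3 : Primrec (fun p : ℕ × (List ℤ × (Co × (ℕ × ℕ))) => p.2.2.2.1 + p.1 + 3) :=
      Primrec.nat_add.comp j0 (Primrec.const 3)
    exact pr_eq (pr_mul i1 (pr_sq i0 j3))
      (pr_add (pr_add (pr_mul i2 (pr_sq i0 j2)) (pr_mul i3 (pr_sq i0 j1))) (pr_mul i4 (pr_sq i0 j0)))
  exact PrimrecPred.and a1 a2

theorem pr_okB (h1 : StPR1) (hC : StPRC) :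
    PrimrecPred (fun q : List ℤ × (Co × ((ℕ × ℕ) × (ℕ × Cert))) =>
      okB q.1 q.2.1 q.2.2.1.1 q.2.2.1.2 q.2.2.2.1 q.2.2.2.2) := by
  have hL : Primrec (fun q : List ℤ × (Co × ((ℕ × ℕ) × (ℕ × Cert))) => q.1) := Primrec.fst
  have he : Primrec (fun q : List ℤ × (Co × ((ℕ × ℕ) × (ℕ × Cert))) => q.2.1) :=
    Primrec.fst.comp Primrec.snd
  have h3 : Primrec (fun q : List ℤ × (Co × ((ℕ × ℕ) × (ℕ × Cert))) => q.2.1.1.1) :=
    Primrec.fst.comp (Primrec.fst.comp he)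
  have h2 : Primrec (fun q : List ℤ × (Co × ((ℕ × ℕ) × (ℕ × Cert))) => q.2.1.1.2) :=
    Primrec.snd.comp (Primrec.fst.comp he)
  have hp : Primrec (fun q : List ℤ × (Co × ((ℕ × ℕ) × (ℕ × Cert))) => q.2.1.2.1) :=
    Primrec.fst.comp (Primrec.snd.comp he)
  have h0 : Primrec (fun q : List ℤ × (Co × ((ℕ × ℕ) × (ℕ × Cert))) => q.2.1.2.2) :=
    Primrec.snd.comp (Primrec.snd.comp he)
  have hn : Primrec (fun q : List ℤ × (Co × ((ℕ × ℕ) × (ℕ × Cert))) => q.2.2.1.1) :=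
    Primrec.fst.comp (Primrec.fst.comp (Primrec.snd.comp Primrec.snd))
  have hm : Primrec (fun q : List ℤ × (Co × ((ℕ × ℕ) × (ℕ × Cert))) => q.2.2.1.2) :=
    Primrec.snd.comp (Primrec.fst.comp (Primrec.snd.comp Primrec.snd))
  have ht : Primrec (fun q : List ℤ × (Co × ((ℕ × ℕ) × (ℕ × Cert))) => q.2.2.2.1) :=
    Primrec.fst.comp (Primrec.snd.comp (Primrec.snd.comp Primrec.snd))
  have hc : Primrec (fun q : List ℤ × (Co × ((ℕ × ℕ) × (ℕ × Cert))) => q.2.2.2.2) :=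
    Primrec.snd.comp (Primrec.snd.comp (Primrec.snd.comp Primrec.snd))
  have n1 : Primrec (fun q : List ℤ × (Co × ((ℕ × ℕ) × (ℕ × Cert))) => q.2.2.1.1 + 1) :=
    Primrec.nat_add.comp hn (Primrec.const 1)
  have n2 : Primrec (fun q : List ℤ × (Co × ((ℕ × ℕ) × (ℕ × Cert))) => q.2.2.1.1 + 2) :=
    Primrec.nat_add.comp hn (Primrec.const 2)
  have n3 : Primrec (fun q : List ℤ × (Co × ((ℕ × ℕ) × (ℕ × Cert))) => q.2.2.1.1 + 3) :=
    Primrec.nat_add.comp hn (Primrec.const 3)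
  have m1 : Primrec (fun q : List ℤ × (Co × ((ℕ × ℕ) × (ℕ × Cert))) => q.2.2.1.2 + 1) :=
    Primrec.nat_add.comp hm (Primrec.const 1)
  have m3 : Primrec (fun q : List ℤ × (Co × ((ℕ × ℕ) × (ℕ × Cert))) => q.2.2.1.2 + 3) :=
    Primrec.nat_add.comp hm (Primrec.const 3)
  have z0 : Primrec (fun _ : List ℤ × (Co × ((ℕ × ℕ) × (ℕ × Cert))) => (0 : ℤ)) :=
    Primrec.const 0
  -- the discriminant
  have hdz : Primrec (fun q : List ℤ × (Co × ((ℕ × ℕ) × (ℕ × Cert))) => dz q.2.1) := by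
    have q22 := pr_mul h2 h2
    have qpp := pr_mul hp hp
    have t1 := pr_mul q22 qpp
    have t2 := pr_mul (pr_mul (Primrec.const (4 : ℤ)) (pr_mul qpp hp)) h3
    have t3 := pr_mul (pr_mul (Primrec.const (4 : ℤ)) (pr_mul q22 h2)) h0
    have t4 := pr_mul (pr_mul (pr_mul (pr_mul (Primrec.const (18 : ℤ)) h2) hp) h0) h3
    have t5 := pr_mul (pr_mul (Primrec.const (27 : ℤ)) (pr_mul h0 h0)) (pr_mul h3 h3)
    refine (pr_sub (pr_sub (pr_sub (pr_add t1 t2) t3) t4) t5).of_eq fun q => ?_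
    unfold dz
    ring
  have a1 : PrimrecPred (fun q : List ℤ × (Co × ((ℕ × ℕ) × (ℕ × Cert))) =>
      sq q.1 q.2.2.1.1 = 0 ∧ sq q.1 (q.2.2.1.1 + 1) = 0 ∧ 0 < sq q.1 (q.2.2.1.1 + 2) ∧
        0 < q.2.1.1.1 ∧ 0 < q.2.1.2.2) :=
    PrimrecPred.and (pr_eq (pr_sq hL hn) z0) (PrimrecPred.and (pr_eq (pr_sq hL n1) z0)
      (PrimrecPred.and (pr_lt z0 (pr_sq hL n2)) (PrimrecPred.and (pr_lt z0 h3) (pr_lt z0 h0))))
  have a2 : PrimrecPred (fun q : List ℤ × (Co × ((ℕ × ℕ) × (ℕ × Cert))) =>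
      Cok (q.1.take (q.2.2.1.1 + 1)) q.2.2.2.1 q.2.2.2.2) :=
    pr_Cok h1 hC (pr_take.comp hL n1) ht hc
  have a3 : PrimrecPred (fun q : List ℤ × (Co × ((ℕ × ℕ) × (ℕ × Cert))) =>
      0 < q.2.1.1.2 ∧ q.2.1.2.1 < 0 ∧ 0 ≤ dz q.2.1) :=
    PrimrecPred.and (pr_lt z0 h2) (PrimrecPred.and (pr_lt hp z0) (pr_le z0 hdz))
  have a4 : PrimrecPred (fun q : List ℤ × (Co × ((ℕ × ℕ) × (ℕ × Cert))) =>
      q.2.2.1.1 + 3 ≤ q.2.2.1.2 ∧ q.2.2.1.2 + 3 < q.1.length ∧ sq q.1 q.2.2.1.2 = 0 ∧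
        sq q.1 (q.2.2.1.2 + 1) = 0) :=
    PrimrecPred.and (Primrec.nat_le.comp n3 hm) (PrimrecPred.and
      (Primrec.nat_lt.comp m3 (Primrec.list_length.comp hL))
      (PrimrecPred.and (pr_eq (pr_sq hL hm) z0) (pr_eq (pr_sq hL m1) z0)))
  have a5 : PrimrecPred (fun q : List ℤ × (Co × ((ℕ × ℕ) × (ℕ × Cert))) =>
      ∀ k ∈ List.range (q.2.2.1.2 + 3), 0 ≤ sq q.1 k ∧ 0 ≤ sq (TL q.1) k) :=
    pr_nonneg2 h1 hL m3
  exact PrimrecPred.and a1 (PrimrecPred.and a2 (PrimrecPred.or a3 (PrimrecPred.and a4 a5)))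

theorem pr_okA (h1 : StPR1) (hC : StPRC) :
    PrimrecPred (fun q : List ℤ × (Co × (ℕ × (ℕ × Cert))) =>
      okA q.1 q.2.1 q.2.2.1 q.2.2.2.1 q.2.2.2.2) := by
  have hL : Primrec (fun q : List ℤ × (Co × (ℕ × (ℕ × Cert))) => q.1) := Primrec.fst
  have he : Primrec (fun q : List ℤ × (Co × (ℕ × (ℕ × Cert))) => q.2.1) :=
    Primrec.fst.comp Primrec.snd
  have h3 : Primrec (fun q : List ℤ × (Co × (ℕ × (ℕ × Cert))) => q.2.1.1.1) :=
    Primrec.fst.comp (Primrec.fst.comp he)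
  have h2 : Primrec (fun q : List ℤ × (Co × (ℕ × (ℕ × Cert))) => q.2.1.1.2) :=
    Primrec.snd.comp (Primrec.fst.comp he)
  have hp : Primrec (fun q : List ℤ × (Co × (ℕ × (ℕ × Cert))) => q.2.1.2.1) :=
    Primrec.fst.comp (Primrec.snd.comp he)
  have h0 : Primrec (fun q : List ℤ × (Co × (ℕ × (ℕ × Cert))) => q.2.1.2.2) :=
    Primrec.snd.comp (Primrec.snd.comp he)
  have hn : Primrec (fun q : List ℤ × (Co × (ℕ × (ℕ × Cert))) => q.2.2.1) :=
    Primrec.fst.comp (Primrec.snd.comp Primrec.snd)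
  have ht : Primrec (fun q : List ℤ × (Co × (ℕ × (ℕ × Cert))) => q.2.2.2.1) :=
    Primrec.fst.comp (Primrec.snd.comp (Primrec.snd.comp Primrec.snd))
  have hc : Primrec (fun q : List ℤ × (Co × (ℕ × (ℕ × Cert))) => q.2.2.2.2) :=
    Primrec.snd.comp (Primrec.snd.comp (Primrec.snd.comp Primrec.snd))
  have n1 : Primrec (fun q : List ℤ × (Co × (ℕ × (ℕ × Cert))) => q.2.2.1 + 1) :=
    Primrec.nat_add.comp hn (Primrec.const 1)
  have n2 : Primrec (fun q : List ℤ × (Co × (ℕ × (ℕ × Cert))) => q.2.2.1 + 2) :=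
    Primrec.nat_add.comp hn (Primrec.const 2)
  have n3 : Primrec (fun q : List ℤ × (Co × (ℕ × (ℕ × Cert))) => q.2.2.1 + 3) :=
    Primrec.nat_add.comp hn (Primrec.const 3)
  have z0 : Primrec (fun _ : List ℤ × (Co × (ℕ × (ℕ × Cert))) => (0 : ℤ)) :=
    Primrec.const 0
  have hd : Primrec (fun q : List ℤ × (Co × (ℕ × (ℕ × Cert))) =>
      q.2.1.1.2 ^ 2 + 4 * q.2.1.2.1 * q.2.1.1.1) :=
    (pr_add (pr_mul h2 h2) (pr_mul (pr_mul (Primrec.const (4 : ℤ)) hp) h3)).of_eq fun q => by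
      ring
  have a1 : PrimrecPred (fun q : List ℤ × (Co × (ℕ × (ℕ × Cert))) =>
      0 < q.2.1.1.1 ∧ 0 ≤ q.2.1.1.2 ∧ q.2.1.2.1 ≤ 0 ∧ q.2.1.2.2 = 0 ∧
        0 ≤ q.2.1.1.2 ^ 2 + 4 * q.2.1.2.1 * q.2.1.1.1) :=
    PrimrecPred.and (pr_lt z0 h3) (PrimrecPred.and (pr_le z0 h2) (PrimrecPred.and (pr_le hp z0)
      (PrimrecPred.and (pr_eq h0 z0) (pr_le z0 hd))))
  have a2 : PrimrecPred (fun q : List ℤ × (Co × (ℕ × (ℕ × Cert))) =>
      Cok ((TL (TL q.1)).take (q.2.2.1 + 3)) q.2.2.2.1 q.2.2.2.2) :=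
    pr_Cok h1 hC (pr_take.comp (pr_TL h1 (pr_TL h1 hL)) n3) ht hc
  have a3 : PrimrecPred (fun q : List ℤ × (Co × (ℕ × (ℕ × Cert))) =>
      q.2.1.1.2 * sq q.1 (q.2.2.1 + 1) ≤ 2 * q.2.1.1.1 * sq q.1 (q.2.2.1 + 2)) :=
    pr_le (pr_mul h2 (pr_sq hL n1)) (pr_mul (pr_mul (Primrec.const (2 : ℤ)) h3) (pr_sq hL n2))
  have a4 : PrimrecPred (fun q : List ℤ × (Co × (ℕ × (ℕ × Cert))) =>
      ∀ k ∈ List.range (q.2.2.1 + 3), 0 ≤ sq q.1 k ∧ 0 ≤ sq (TL q.1) k) :=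
    pr_nonneg2 h1 hL n3
  exact PrimrecPred.and a1 (PrimrecPred.and a2 (PrimrecPred.and a3 a4))

theorem pr_Bd : Primrec Bd := by
  have h : Primrec (fun x : Inp => x.1.foldr (fun (p : List ℤ) (s : ℕ) => p.length + s) 0) := by
    refine Primrec.list_foldr (f := fun x : Inp => x.1) (g := fun _ => 0)
      (h := fun (_ : Inp) (p : List ℤ × ℕ) => p.1.length + p.2) Primrec.fst (Primrec.const 0) ?_
    exact Primrec.nat_add.comp (Primrec.list_length.comp (Primrec.fst.comp Primrec.snd))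
      (Primrec.snd.comp Primrec.snd)
  refine (Primrec.nat_add.comp (Primrec.nat_mul.comp (Primrec.const 3) h)
    (Primrec.list_length.comp Primrec.snd)).of_eq fun x => ?_
  obtain ⟨l, m⟩ := x
  unfold Bd
  have : ∀ l : List (List ℤ), l.foldr (fun (p : List ℤ) (s : ℕ) => p.length + s) 0 =
      (l.map List.length).sum := by
    intro l
    induction l with
    | nil => rfl
    | cons p l ih => rw [List.foldr_cons, ih, List.map_cons, List.sum_cons]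
  simp only [this]

theorem hPO (hPR1 : StPR1) (hPRC : StPRC) : StPO :=
  ⟨pr_okR, pr_okB hPR1 hPRC, pr_okA hPR1 hPRC, pr_Bd⟩

end Pool.Agent.Helper64.O3
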